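import Mathlib

/-!
Definitions for the problem `MP_76de3d_mp`: the many-body ground-state energy of a Bose gas on the
three dimensional torus, and the Simple equation of Lieb's simplified approach.
-/

open MeasureTheory Filter Topology

namespace Pool.Agent.P76de3d

/-- Physical space `ℝ³`. -/
abbrev E3 : Type := EuclideanSpace ℝ (Fin 3)

/-- The lattice vector `L z`, for `z ∈ ℤ³`. -/
noncomputable def latt (L : ℝ) (z : Fin 3 → ℤ) : E3 := WithLp.toLp 2 (fun a => L * (z a : ℝ))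

/-- The pair potential on the torus `ℝ³/(Lℤ)³`: the periodisation `∑_z v(x + L z)` of `v`. -/
noncomputable def vper (v : E3 → ℝ) (L : ℝ) (x : E3) : ℝ := ∑' z : Fin 3 → ℤ, v (x + latt L z)

/-- The fundamental box `([0,L)³)^N` of configurations of `N` particles on the torus. -/
def box (N : ℕ) (L : ℝ) : Set (Fin N → E3) := {x | ∀ i a, 0 ≤ x i a ∧ x i a < L}

/-- A smooth bosonic wave function of `N` particles on the torus of side `L`: a smooth complex
function on `(ℝ³)^N`, `L`-periodic in every coordinate and symmetric under permutations. -/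
structure IsBoseFn (N : ℕ) (L : ℝ) (ψ : (Fin N → E3) → ℂ) : Prop where
  smooth : ContDiff ℝ (⊤ : ℕ∞) ψ
  periodic : ∀ (x : Fin N → E3) (z : Fin N → Fin 3 → ℤ), ψ (fun i => x i + latt L (z i)) = ψ x
  symm : ∀ (σ : Equiv.Perm (Fin N)) (x : Fin N → E3), ψ (fun i => x (σ i)) = ψ x

/-- The squared `L²` norm of `ψ` over the torus. -/
noncomputable def mass (N : ℕ) (L : ℝ) (ψ : (Fin N → E3) → ℂ) : ℝ :=
  ∫ x in box N L, ‖ψ x‖ ^ 2

/-- The kinetic energy `½ ∑ᵢ ∫ |∇ᵢ ψ|²`. -/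
noncomputable def kinetic (N : ℕ) (L : ℝ) (ψ : (Fin N → E3) → ℂ) : ℝ :=
  ∫ x in box N L, (1 / 2) * ∑ i : Fin N, ∑ a : Fin 3,
    ‖fderiv ℝ ψ x (Pi.single i (EuclideanSpace.single a (1 : ℝ)))‖ ^ 2

/-- The potential energy `∫ ∑_{i<j} v_L(xᵢ - xⱼ) |ψ|²`. -/
noncomputable def potential (v : E3 → ℝ) (N : ℕ) (L : ℝ) (ψ : (Fin N → E3) → ℂ) : ℝ :=
  ∫ x in box N L, (∑ i : Fin N, ∑ j : Fin N, if i < j then vper v L (x i - x j) else 0) *
    ‖ψ x‖ ^ 2

/-- The ground-state energy of `H_N = -½ ∑ Δᵢ + ∑_{i<j} v(xᵢ - xⱼ)` on the torus of side `L`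
(bottom of the spectrum, by the variational principle over smooth bosonic functions). -/
noncomputable def groundEnergy (v : E3 → ℝ) (N : ℕ) (L : ℝ) : ℝ :=
  sInf {E : ℝ | ∃ ψ : (Fin N → E3) → ℂ, IsBoseFn N L ψ ∧ mass N L ψ = 1 ∧
    E = kinetic N L ψ + potential v N L ψ}

/-- `e₀` is the ground-state energy per particle at density `ρ`: the limit of `E₀(N,V)/N` with
`V = L³ = N/ρ`, `N → ∞`. -/
def IsEnergyPerParticle (v : E3 → ℝ) (ρ : ℝ) (e₀ : ℝ) : Prop :=
  Tendsto (fun N : ℕ => groundEnergy v N (((N : ℝ) / ρ) ^ (1 / 3 : ℝ)) / N) atTop (𝓝 e₀)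

/-- `(u,e)` is a classical solution of the Simple equation at density `ρ`. -/
structure IsClassicalSolution (v : E3 → ℝ) (ρ : ℝ) (u : E3 → ℝ) (e : ℝ) : Prop where
  integrable : Integrable u
  smooth : ContDiff ℝ (⊤ : ℕ∞) u
  eqn : ∀ x, -(Laplacian.laplacian u x) + 4 * e * u x =
    (1 - u x) * v x + 2 * e * ρ * ∫ y, u y * u (x - y)
  energy : e = ρ / 2 * ∫ x, (1 - u x) * v x

end Pool.Agent.P76de3d
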