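import Pool.Agent.Lib.P76de3d.Defs

/-! Gaussian computations in `ℝ³`. -/

open MeasureTheory Filter Topology InnerProductSpace

namespace Pool.Agent.P76de3d

/-- the Gaussian -/
noncomputable def gs (b : ℝ) (x : E3) : ℝ := Real.exp (-b * ‖x‖ ^ 2)

lemma gs_pos (b : ℝ) (x : E3) : 0 < gs b x := Real.exp_pos _

lemma contDiff_gs (b : ℝ) : ContDiff ℝ (⊤ : ℕ∞) (gs b) := by
  unfold gs
  exact Real.contDiff_exp.comp (contDiff_const.mul (contDiff_norm_sq ℝ))

lemma continuous_gs (b : ℝ) : Continuous (gs b) := (contDiff_gs b).continuous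

lemma integrable_gs {b : ℝ} (hb : 0 < b) : Integrable (gs b) := by
  have h := GaussianFourier.integrable_cexp_neg_mul_sq_norm_add (V := E3) (b := (b : ℂ))
    (by simpa using hb) 0 0
  have h2 := h.re
  refine h2.congr ?_
  filter_upwards with x
  simp only [gs, zero_mul, add_zero]
  rw [← Complex.ofReal_pow, ← Complex.ofReal_neg, ← Complex.ofReal_mul, ← Complex.ofReal_exp]
  exact Complex.ofReal_re _

lemma integral_gs {b : ℝ} (hb : 0 < b) : ∫ x : E3, gs b x = (Real.pi / b) ^ (3 / 2 : ℝ) := by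
  have := GaussianFourier.integral_rexp_neg_mul_sq_norm (V := E3) hb
  simpa [gs] using this

lemma hasFDerivAt_gs (b : ℝ) (x : E3) :
    HasFDerivAt (gs b) ((-2 * b * gs b x) • (innerSL ℝ x)) x := by
  have h1 : HasFDerivAt (fun x : E3 => ‖x‖ ^ 2) (2 • (innerSL ℝ x)) x :=
    (hasStrictFDerivAt_norm_sq x).hasFDerivAt
  have h2 := (h1.const_mul (-b)).exp
  unfold gs
  refine h2.congr_fderiv ?_
  ext v
  simp
  ring

lemma fderiv_gs (b : ℝ) (x v : E3) : fderiv ℝ (gs b) x v = -2 * b * gs b x * inner ℝ x v := by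
  rw [(hasFDerivAt_gs b x).fderiv]; simp

lemma laplacian_gs (b : ℝ) (x : E3) :
    Laplacian.laplacian (gs b) x = (4 * b ^ 2 * ‖x‖ ^ 2 - 6 * b) * gs b x := by
  rw [laplacian_eq_iteratedFDeriv_orthonormalBasis (gs b) (EuclideanSpace.basisFun (Fin 3) ℝ)]
  have key : ∀ v : E3, iteratedFDeriv ℝ 2 (gs b) x ![v, v] =
      (4 * b ^ 2 * (inner ℝ x v) ^ 2 - 2 * b * inner ℝ v v) * gs b x := by
    intro v
    rw [iteratedFDeriv_two_apply]
    simp only [Matrix.cons_val_zero, Matrix.cons_val_one]
    have hd : DifferentiableAt ℝ (fderiv ℝ (gs b)) x := by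
      have := (contDiff_gs b).fderiv_right (m := 1) (by norm_cast)
      exact (this.differentiable (by norm_num)).differentiableAt
    have h3 : fderiv ℝ (fderiv ℝ (gs b)) x v v = fderiv ℝ (fun y => fderiv ℝ (gs b) y v) x v := by
      rw [fderiv_clm_apply hd (differentiableAt_const v)]
      simp
    rw [h3]
    have h4 : (fun y => fderiv ℝ (gs b) y v) = fun y => (-2 * b) * (gs b y * inner ℝ y v) := by
      ext y; rw [fderiv_gs]; ring
    rw [h4]
    have h5 : HasFDerivAt (fun y : E3 => inner ℝ y v) (innerSL ℝ v) x := by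
      have : (fun y : E3 => inner ℝ y v) = fun y => innerSL ℝ v y := by
        ext y; simp [real_inner_comm]
      rw [this]
      exact (innerSL ℝ v).hasFDerivAt
    have h6 : HasFDerivAt (fun y => -2 * b * (gs b y * inner ℝ y v)) _ x :=
      ((hasFDerivAt_gs b x).mul h5).const_mul (-2 * b)
    rw [h6.fderiv]
    simp
    ring
  simp only [key]
  rw [← Finset.sum_mul, Finset.sum_sub_distrib, ← Finset.mul_sum]
  have e1 : ∑ i, (inner ℝ x ((EuclideanSpace.basisFun (Fin 3) ℝ) i)) ^ 2 = ‖x‖ ^ 2 := by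
    rw [EuclideanSpace.norm_sq_eq]
    apply Finset.sum_congr rfl
    intro i _
    simp [EuclideanSpace.inner_single_right]
  rw [e1]
  simp
  left
  ring

/-- convolution of two equal gaussians -/
lemma conv_gs {b : ℝ} (hb : 0 < b) (x : E3) :
    ∫ y, gs b y * gs b (x - y) = (Real.pi / (2 * b)) ^ (3 / 2 : ℝ) * gs (b / 2) x := by
  have h1 : ∀ y : E3, gs b y * gs b (x - y) = gs (b / 2) x * gs (2 * b) (y - (1 / 2 : ℝ) • x) := by
    intro y
    unfold gs
    rw [← Real.exp_add, ← Real.exp_add]
    congr 1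
    have e1 := norm_sub_sq_real x y
    have e2 := norm_sub_sq_real y ((1 / 2 : ℝ) • x)
    rw [e1, e2, norm_smul, inner_smul_right, real_inner_comm x y]
    norm_num
    ring
  simp_rw [h1]
  rw [integral_const_mul, integral_sub_right_eq_self (fun y => gs (2 * b) y),
    integral_gs (by positivity)]
  ring

lemma sq_mul_gs_le {b : ℝ} (hb : 0 < b) (x : E3) : ‖x‖ ^ 2 * gs b x ≤ 2 / b * gs (b / 2) x := by
  have h1 : gs b x = gs (b / 2) x * gs (b / 2) x := by
    unfold gs
    rw [← Real.exp_add]; congr 1; ring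
  have h2 : (b / 2 * ‖x‖ ^ 2) * gs (b / 2) x ≤ 1 := by
    have h3 : b / 2 * ‖x‖ ^ 2 ≤ Real.exp (b / 2 * ‖x‖ ^ 2) := by
      have := Real.add_one_le_exp (b / 2 * ‖x‖ ^ 2)
      linarith
    unfold gs
    calc (b / 2 * ‖x‖ ^ 2) * Real.exp (-(b / 2) * ‖x‖ ^ 2)
        ≤ Real.exp (b / 2 * ‖x‖ ^ 2) * Real.exp (-(b / 2) * ‖x‖ ^ 2) := by gcongr
      _ = 1 := by rw [← Real.exp_add]; simp
  rw [h1]
  have h4 := gs_pos (b / 2) x
  have h5 : ‖x‖ ^ 2 * gs (b / 2) x ≤ 2 / b := by
    rw [le_div_iff₀ hb]; nlinarith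
  nlinarith

lemma integrable_sq_mul_gs {b : ℝ} (hb : 0 < b) : Integrable (fun x : E3 => ‖x‖ ^ 2 * gs b x) := by
  refine ((integrable_gs (b := b / 2) (by positivity)).const_mul (2 / b)).mono' ?_ ?_
  · exact ((continuous_norm.pow 2).mul (continuous_gs b)).aestronglyMeasurable
  · filter_upwards with x
    rw [Real.norm_of_nonneg (by have := gs_pos b x; positivity)]
    exact sq_mul_gs_le hb x

lemma norm_mul_gs_integrable {b : ℝ} (hb : 0 < b) : Integrable (fun x : E3 => ‖x‖ * gs b x) := by
  refine ((integrable_gs hb).add (integrable_sq_mul_gs hb)).mono' ?_ ?_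
  · exact (continuous_norm.mul (continuous_gs b)).aestronglyMeasurable
  · filter_upwards with x
    have h := gs_pos b x
    rw [Real.norm_of_nonneg (by positivity)]
    simp only [Pi.add_apply]
    nlinarith [sq_nonneg (‖x‖ - 1), norm_nonneg x]

lemma integral_sq_mul_gs {b : ℝ} (hb : 0 < b) :
    ∫ x : E3, ‖x‖ ^ 2 * gs b x = 3 / (2 * b) * (Real.pi / b) ^ (3 / 2 : ℝ) := by
  have hcoord : ∀ i : Fin 3, ∫ x : E3, (x i) ^ 2 * gs b x = 1 / (2 * b) * ∫ x : E3, gs b x := by
    intro i
    have hf : ∀ x : E3, HasFDerivAt (fun y : E3 => y i) (EuclideanSpace.proj i : E3 →L[ℝ] ℝ) x :=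
      fun x => (EuclideanSpace.proj i : E3 →L[ℝ] ℝ).hasFDerivAt
    have hfd : ∀ x v : E3, fderiv ℝ (fun y : E3 => y i) x v = v i := by
      intro x v; rw [(hf x).fderiv]; rfl
    have hle : ∀ x : E3, |x i| ≤ ‖x‖ := fun x => by
      have := EuclideanSpace.norm_eq x
      have h2 : (x i) ^ 2 ≤ ‖x‖ ^ 2 := by
        rw [EuclideanSpace.norm_sq_eq]
        have := Finset.single_le_sum (f := fun j => ‖x j‖ ^ 2) (fun j _ => by positivity)
          (Finset.mem_univ i)
        simpa using this
      exact abs_le_of_sq_le_sq h2 (norm_nonneg x)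
    have hg : ∀ x : E3, fderiv ℝ (gs b) x (EuclideanSpace.single i (1 : ℝ)) =
        -2 * b * (x i * gs b x) := by
      intro x; rw [fderiv_gs]; simp [EuclideanSpace.inner_single_right]; ring
    have hint : Integrable (fun x : E3 => (x i) ^ 2 * gs b x) := by
      refine (integrable_sq_mul_gs hb).mono' ?_ ?_
      · exact (((EuclideanSpace.proj i : E3 →L[ℝ] ℝ).continuous.pow 2).mul
          (continuous_gs b)).aestronglyMeasurable
      · filter_upwards with x
        have h := gs_pos b x
        rw [Real.norm_of_nonneg (by positivity)]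
        have h7 : (x i) ^ 2 ≤ ‖x‖ ^ 2 := sq_le_sq' (by linarith [abs_le.1 (hle x)])
          (abs_le.1 (hle x)).2
        exact mul_le_mul_of_nonneg_right h7 h.le
    have hint1 : Integrable (fun x : E3 => x i * gs b x) := by
      refine (norm_mul_gs_integrable hb).mono' ?_ ?_
      · exact ((EuclideanSpace.proj i : E3 →L[ℝ] ℝ).continuous.mul
          (continuous_gs b)).aestronglyMeasurable
      · filter_upwards with x
        have h := gs_pos b x
        rw [norm_mul, Real.norm_eq_abs, Real.norm_of_nonneg h.le]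
        gcongr
        exact hle x
    have key := integral_mul_fderiv_eq_neg_fderiv_mul_of_integrable
      (f := fun y : E3 => y i) (g := gs b) (v := EuclideanSpace.single i (1 : ℝ))
      (μ := volume) (𝕜 := ℝ) ?_ ?_ hint1 (fun x _ => (hf x).differentiableAt)
      (fun x _ => (hasFDerivAt_gs b x).differentiableAt)
    · simp only [hfd, hg] at key
      have e1 : (fun x : E3 => x i * (-2 * b * (x i * gs b x))) =
          fun x => (-2 * b) * ((x i) ^ 2 * gs b x) := by ext x; ring
      rw [e1, integral_const_mul] at key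
      simp at key
      field_simp
      linarith
    · simp only [hfd]
      simpa using integrable_gs hb
    · simp only [hg]
      refine (hint.const_mul (-2 * b)).congr ?_
      filter_upwards with x
      ring
  have hsum : (fun x : E3 => ‖x‖ ^ 2 * gs b x) = fun x => ∑ i : Fin 3, (x i) ^ 2 * gs b x := by
    ext x
    rw [EuclideanSpace.norm_sq_eq, Finset.sum_mul]
    simp
  rw [hsum, integral_finsetSum]
  · simp only [hcoord, integral_gs hb]
    simp
    ring
  · intro i _
    refine (integrable_sq_mul_gs hb).mono' ?_ ?_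
    · exact (((EuclideanSpace.proj i : E3 →L[ℝ] ℝ).continuous.pow 2).mul
        (continuous_gs b)).aestronglyMeasurable
    · filter_upwards with x
      have h := gs_pos b x
      rw [Real.norm_of_nonneg (by positivity)]
      refine mul_le_mul_of_nonneg_right ?_ h.le
      rw [EuclideanSpace.norm_sq_eq]
      have := Finset.single_le_sum (f := fun j => ‖x j‖ ^ 2) (fun j _ => by positivity)
        (Finset.mem_univ i)
      simpa using this

end Pool.Agent.P76de3d
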